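import Pool.Agent.E8helper50.SR.Part3

/-!
# MP_1a662b_al: varieties of associative algebras with a unique basic superrank

The definitions are in `Pool/Agent/E8helper50/SR/S0.lean` and `SL.lean`.
-/

set_option autoImplicit false

universe u

open Pool.Agent.E8helper50.SR

/-- Let `F` be a field of characteristic `0`, `A` a representable associative superalgebra over
`F` (one that embeds into a finite-dimensional superalgebra over an extension field of `F`; for
example a finite-dimensional one), and `V = var (G(A))`.  Then `V = var (G(F_{2,N}(V)))` and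
`V = var (G(F_{N',1}(V)))` for some `N`, `N'`.  So if `V` has exactly one basic superrank
`(r, s)`, then `r ≤ 2` and `s ≤ 1`. -/
theorem Pool.Agent.Results.MP_1a662b_al.BasicSuperrank.result :
    ∀ (F : Type u) [Field F] [CharZero F] (A : SAlg F), Representable A →
      (∃ N : ℕ, GenL (IdL A) 2 N) ∧ (∃ N : ℕ, GenL (IdL A) N 1) ∧
      ∀ r s : ℕ, Spectrum (IdL A) = {(r, s)} → r ≤ 2 ∧ s ≤ 1 := by
  intro F _ _ A hA
  obtain ⟨⟨N, hN⟩, ⟨N', hN'⟩⟩ := part3 F A hA
  refine ⟨⟨N, hN⟩, ⟨N', hN'⟩, ?_⟩
  intro r s h
  constructor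
  · obtain ⟨q, hq, h1, _⟩ := exists_isBSRL (IdL A) 2 N hN
    rw [h] at hq
    have : q = (r, s) := hq
    rw [this] at h1
    exact h1
  · obtain ⟨q, hq, _, h1⟩ := exists_isBSRL (IdL A) N' 1 hN'
    rw [h] at hq
    have : q = (r, s) := hq
    rw [this] at h1
    exact h1
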